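import Mathlib
import Pool.Agent.Lib.MP_4befb3_co.Defs
import Pool.Agent.Lib.MP_4befb3_co.Main

/-!
The `1/2`-chromatic number of the continuous complete graph on `n` vertices, for every `n`.

The value is `⌈n/2⌉` for `n ≤ 10` and for `n = 12, 14, 16`; for all other `n` it is smaller
(for `n = 11` it is `5`, see `value_eleven`), and it is asymptotic to `(√2 - 1) n`.
-/

namespace Pool.Agent.Results.MP_4befb3_co.HalfChromatic

open Pool.Agent.MP_4befb3_co

/-- For every natural number `n`, the `1/2`-chromatic number of the continuous complete graph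
`Γ(K_n)` is the smaller of `⌈n/2⌉` and `⌈(5 - 2n + √(8n² - 24n + 25))/2⌉`. -/
theorem result (n : ℕ) :
    rChromatic (⊤ : SimpleGraph (Fin n)) (1 / 2) =
      min ⌈(n : ℝ) / 2⌉₊ ⌈(5 - 2 * (n : ℝ) + √(8 * (n : ℝ) ^ 2 - 24 * n + 25)) / 2⌉₊ :=
  rChromatic_complete n

/-- The smallest case in which the value is below `⌈n/2⌉`: five colours are enough for
`n = 11`, while `⌈11/2⌉ = 6`. -/
theorem value_eleven : rChromatic (⊤ : SimpleGraph (Fin 11)) (1 / 2) = 5 := by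
  rw [result]
  have h1 : √(8 * ((11 : ℕ) : ℝ) ^ 2 - 24 * ((11 : ℕ) : ℝ) + 25) = 27 := by
    rw [show (8 * ((11 : ℕ) : ℝ) ^ 2 - 24 * ((11 : ℕ) : ℝ) + 25) = 27 ^ 2 by norm_num]
    exact Real.sqrt_sq (by norm_num)
  rw [h1]
  have h2 : ⌈((11 : ℕ) : ℝ) / 2⌉₊ = 6 := by
    rw [Nat.ceil_eq_iff (by norm_num)]
    norm_num
  have h3 : ⌈(5 - 2 * ((11 : ℕ) : ℝ) + 27) / 2⌉₊ = 5 := by
    rw [Nat.ceil_eq_iff (by norm_num)]
    norm_num
  rw [h2, h3]
  rfl

end Pool.Agent.Results.MP_4befb3_co.HalfChromatic
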